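import Pool.Agent.H8.Shelf

set_option autoImplicit false

namespace Pool.Agent.Results.MP_6800d9_co.Cover

open Set

/-- Axis-parallel rectangles `[0, a i] × [0, b i]` with sides at most `1` and total area `3`
cover the unit square after suitable translations. -/
theorem result (ι : Type) (a b : ι → ℝ) (ha : ∀ i, 0 < a i ∧ a i ≤ 1)
    (hb : ∀ i, 0 < b i ∧ b i ≤ 1) (h : HasSum (fun i => a i * b i) 3) :
    ∃ v : ι → ℝ × ℝ, Icc (0 : ℝ) 1 ×ˢ Icc (0 : ℝ) 1 ⊆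
      ⋃ i, (fun p => p + v i) '' (Icc 0 (a i) ×ˢ Icc 0 (b i)) := by
  classical
  obtain ⟨F, u, v, h⟩ := Pool.Agent.H8.Shelf.main ha hb h
  refine ⟨fun i => (u i, v i), fun p hp => ?_⟩
  obtain ⟨i, -, h1, h2⟩ := h p.1 p.2 hp.1.1 hp.1.2 hp.2.1 hp.2.2
  exact mem_iUnion.2 ⟨i, p - (u i, v i), ⟨⟨by simpa using h1.1, by simp; linarith [h1.2]⟩,
    by simpa using h2.1, by simp; linarith [h2.2]⟩, by simp⟩

end Pool.Agent.Results.MP_6800d9_co.Cover
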